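import Pool.Agent.H503R3.CC.Hyp
import Pool.Agent.H503R3.CC.Generic

/-!
# The condition `(C_c)` fails for local hypersurface domains, for every `c ≥ 2`

For `c = n + 1` the ring is `K[x_0, …, x_n, w] / (w ^ 2 - x_0 x_n)` localised at the origin and the
module is `R / 𝔭` with `𝔭 = (w, x_0, …, x_{n-1})`.
-/

set_option autoImplicit false

namespace Pool.Agent.Results.MP_86e60f_al.ConditionCFails

open CategoryTheory IsLocalRing TensorProduct H503R3.CC

universe u

/-- For every field `K` and every `c ≥ 2` there is a local hypersurface domain `R` (a `K`-algebra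
of dimension `c`) for which the condition `(C_c)` fails. The failure is witnessed by a cyclic
module `R / 𝔭` with `𝔭` prime, and `R` is regular at every nonmaximal prime containing `𝔭`. -/
theorem result (K : Type u) [Field K] (c : ℕ) (hc : 2 ≤ c) :
    ∃ (R : Type u) (_ : CommRing R) (_ : IsLocalRing R) (_ : Algebra K R),
      IsLocalHypersurfaceDomain R ∧ ringKrullDim R = c ∧ ¬ ConditionC c R ∧
      ∃ (𝔭 : Ideal R) (_ : 𝔭.IsPrime),
        IsCMOfCodim R (R ⧸ 𝔭) (c - 1) ∧
        IsCMOfCodim R ((R ⧸ 𝔭) ⊗[R]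
          Abelian.Ext (ModuleCat.of R (R ⧸ 𝔭)) (ModuleCat.of R R) (c - 1)) (c - 1) ∧
        projectiveDimension (ModuleCat.of R (R ⧸ 𝔭)) = ⊤ ∧
        ∀ (𝔮 : Ideal R) [𝔮.IsPrime], 𝔭 ≤ 𝔮 → 𝔮 ≠ maximalIdeal R →
          IsRegularLocalRing (Localization.AtPrime 𝔮) := by
  obtain ⟨n, rfl⟩ : ∃ n, c = n + 1 := ⟨c - 1, by omega⟩
  have hn : 0 < n := by omega
  have hdom := RL_isDomain K n hn
  have hnoeth : IsNoetherianRing (RL K n) :=
    IsLocalization.isNoetherianRing (m0 K n).primeCompl (RL K n) inferInstance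
  have hd := data K n hn
  have hp := hd.prime (n - 1) (by omega)
  refine ⟨RL K n, inferInstance, inferInstance, inferInstance, RL_hypersurface K n hn, hd.dim,
    hd.not_conditionC, P (x1 K n) (w1 K n) (n - 1), hp, hd.quot_isCM, hd.tensor_isCM,
    hd.pd_quot (n - 1) (by omega), ?_⟩
  intro 𝔮 h𝔮 hle hne
  rcases hd.eq_or_eq 𝔮 hle with h | h
  · subst h
    exact hd.regular_at
  · exact absurd h hne

end Pool.Agent.Results.MP_86e60f_al.ConditionCFails
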